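import Pool.Agent.X329.GGM.Main

/-!
# The modal logic of general game models

`GGM_N`, the set of the formulas of the language with the modalities `⟨≤ᵢ⟩` (preference), `⟨∼ᵢ⟩`
(epistemic indistinguishability) and `⟨≈ᵢ⟩` (action freedom) which are valid on all general game
models for the finite set `N` of at least two players, is axiomatised by (`Prov`):

* all propositional tautologies, `[m] (φ → ψ) → ([m] φ → [m] ψ)` and `⟨m⟩ φ ↔ ¬ [m] ¬ φ` for all
  modalities `m`;
* `φ → ⟨m⟩ φ` and `⟨m⟩ ⟨m⟩ φ → ⟨m⟩ φ` for all modalities `m` (so that `≤ᵢ` is `S4`);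
* `φ → [∼ᵢ] ⟨∼ᵢ⟩ φ` and `φ → [≈ᵢ] ⟨≈ᵢ⟩ φ` (so that `∼ᵢ` and `≈ᵢ` are `S5`);
* `⟨≈ᵢ⟩ φ → ⟨∼ⱼ⟩ φ` for `i ≠ j`;
* if there are exactly two players, also `⟨∼ⱼ⟩ φ → ⟨≈ᵢ⟩ φ` for `i ≠ j`;
* the rules of modus ponens and of necessitation.

The axiom system is sound and strongly complete. The proof of completeness: the canonical model is a
Kripke model on which the axioms hold, and every such model is a bounded morphic image of a general
game model. The profiles of the latter are given by finite sequences `l` of steps along the relations,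
and the `j`-th coordinate of the profile of `l` is what is left of `l` after the removal of all last
steps along `∼ⱼ` and along `≈ₖ`, `k ≠ j`.
-/

set_option autoImplicit false

namespace Pool.Agent.Results.MP_4a7d17_lc.Axiomatization

open Pool.Agent.X329.GGM

/-- **The logic of general game models.** For every finite set `N` of at least two players and all
propositional letters `P`: a formula is valid on all general game models if and only if it is a theorem
of the axiom system; and a formula `φ` is true at all profiles of all general game models at which all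
formulas of the set `Γ` are true if and only if `a₁ → (a₂ → ... → φ)` is a theorem for some finitely
many formulas `a₁, a₂, ...` in `Γ`. -/
theorem result (P N : Type) [Finite N] (hN : 2 ≤ Nat.card N) :
    (∀ φ : Form P N, Valid φ ↔ Prov φ) ∧
    ∀ (Γ : Set (Form P N)) (φ : Form P N),
      (∀ (M : FullModel P N) (W : Set (∀ i, M.A i)), ∀ σ ∈ W, (∀ ψ ∈ Γ, Sat M W ψ σ) →
        Sat M W φ σ) ↔
      ∃ L : List (Form P N), (∀ a ∈ L, a ∈ Γ) ∧ Prov (L.foldr Form.imp φ) := by
  have hnt : Nontrivial N := Finite.one_lt_card_iff_nontrivial.1 (by omega)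
  have key : ∀ (L : List (Form P N)) (φ : Form P N), impl L φ = L.foldr Form.imp φ := by
    intro L φ
    induction L with
    | nil => rfl
    | cons a L ih => rw [impl, ih]; rfl
  refine ⟨fun φ => ⟨fun h => ?_, sound⟩, fun Γ φ => ⟨fun h => ?_, ?_⟩⟩
  · obtain ⟨L, hL, p⟩ := complete (Γ := (∅ : Set (Form P N))) (φ := φ)
      (fun M W σ hσ _ => h M W σ hσ)
    rcases L with _ | ⟨a, L⟩
    · exact p
    · exact absurd (hL a List.mem_cons_self) (Set.notMem_empty _)
  · obtain ⟨L, hL, p⟩ := complete h
    exact ⟨L, hL, key L φ ▸ p⟩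
  · rintro ⟨L, hL, p⟩ M W σ hσ hΓ
    have h1 := sound p M W σ hσ
    rw [← key] at h1
    exact ((sat_val M W σ).impl L φ).1 h1 fun a ha => hΓ a (hL a ha)

end Pool.Agent.Results.MP_4a7d17_lc.Axiomatization
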